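import Pool.Agent.H12R3.VR.Stmts

/-!
# Two vector fields tangent to a graph: the function is affine
-/

set_option autoImplicit false

open Filter Topology Set

namespace Pool.Agent.H679R3.VR

lemma two_lines (I : Set ℝ) (hI : I.OrdConnected) (h : ℝ → ℝ)
    (hd : ∀ x ∈ I, DifferentiableAt ℝ h x) (a g : ℝ) (hg : g ≠ 0)
    (H : ∀ x ∈ I, h x = 0 ∨ h x = g * (x - a)) :
    (∀ x ∈ I, h x = 0) ∨ (∀ x ∈ I, h x = g * (x - a)) := by
  classical
  by_contra hcon
  push Not at hcon
  obtain ⟨⟨x₁, hx₁, h1⟩, x₂, hx₂, h2⟩ := hcon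
  have h1' : h x₁ = g * (x₁ - a) := (H x₁ hx₁).resolve_left h1
  have h2' : h x₂ = 0 := (H x₂ hx₂).resolve_right h2
  have hne1 : x₁ ≠ a := by
    rintro rfl
    apply h1
    rw [h1']; ring
  have hne2 : x₂ ≠ a := by
    rintro rfl
    apply h2
    rw [h2']; ring
  set U : ℝ → ℝ := fun x => if x = a then deriv h a else h x / (x - a) with hU
  have hUne : ∀ x, x ≠ a → U x = h x / (x - a) := fun x hx => by simp [hU, hx]
  have hUa : U a = deriv h a := by simp [hU]
  have hcont : ContinuousOn U I := by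
    intro x hx
    apply ContinuousAt.continuousWithinAt
    by_cases hxa : x = a
    · subst hxa
      have h0 : h x = 0 := by
        rcases H x hx with h3 | h3
        · exact h3
        · rw [h3]; ring
      rw [continuousAt_iff_punctured_nhds, hUa]
      have hder := (hasDerivAt_iff_tendsto_slope.1 (hd x hx).hasDerivAt)
      refine hder.congr' ?_
      filter_upwards [self_mem_nhdsWithin] with y hy
      rw [hUne y hy, slope_def_field, h0, sub_zero]
    · have hc : ContinuousAt (fun y => h y / (y - a)) x := by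
        apply ContinuousAt.div (hd x hx).continuousAt (by fun_prop)
        exact sub_ne_zero.2 hxa
      refine hc.congr ?_
      filter_upwards [eventually_ne_nhds hxa] with y hy
      exact (hUne y hy).symm
  have hpre : (U '' I).OrdConnected := (hI.isPreconnected.image U hcont).ordConnected
  have hm1 : g ∈ U '' I := ⟨x₁, hx₁, by
    rw [hUne x₁ hne1, h1']
    field_simp [sub_ne_zero.2 hne1]⟩
  have hm2 : (0 : ℝ) ∈ U '' I := ⟨x₂, hx₂, by rw [hUne x₂ hne2, h2', zero_div]⟩
  have hsub := hpre.uIcc_subset hm2 hm1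
  have key : ∀ t : ℝ, 0 < t → t < 1 → U a = t * g := by
    intro t ht0 ht1
    have hmem : t * g ∈ uIcc 0 g := by
      rcases le_total 0 g with h0 | h0
      · rw [uIcc_of_le h0]
        exact ⟨by positivity, by nlinarith⟩
      · rw [uIcc_of_ge h0]
        exact ⟨by nlinarith, by nlinarith⟩
    obtain ⟨y, hy, hyU⟩ := hsub hmem
    by_cases hya : y = a
    · rw [← hya, hyU]
    · exfalso
      rw [hUne y hya] at hyU
      have hya' := sub_ne_zero.2 hya
      rcases H y hy with h3 | h3
      · rw [h3, zero_div] at hyU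
        have : t * g ≠ 0 := mul_ne_zero ht0.ne' hg
        exact this hyU.symm
      · rw [h3, mul_div_assoc, div_self hya', mul_one] at hyU
        have h4 : (1 - t) * g = 0 := by linarith
        rcases mul_eq_zero.1 h4 with h5 | h5
        · linarith
        · exact hg h5
  have k1 := key (1 / 3) (by norm_num) (by norm_num)
  have k2 := key (2 / 3) (by norm_num) (by norm_num)
  apply hg
  linarith

lemma cubic_zero (p3 p2 p1 p0 u e : ℝ) (he : e ≠ 0)
    (P : ∀ t ∈ ({u, u + e, u + 2 * e, u + 3 * e} : Set ℝ),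
      p3 * t ^ 3 + p2 * t ^ 2 + p1 * t + p0 = 0) :
    p3 = 0 ∧ p2 = 0 ∧ p1 = 0 ∧ p0 = 0 := by
  have P0 := P u (by simp)
  have P1 := P (u + e) (by simp)
  have P2 := P (u + 2 * e) (by simp)
  have P3 := P (u + 3 * e) (by simp)
  have e3 : p3 * (6 * e ^ 3) = 0 := by linear_combination P3 - 3 * P2 + 3 * P1 - P0
  have q3 : p3 = 0 := by
    rcases mul_eq_zero.1 e3 with h | h
    · exact h
    · exact absurd h (by positivity)
  subst q3
  have e2 : p2 * (2 * e ^ 2) = 0 := by linear_combination P2 - 2 * P1 + P0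
  have q2 : p2 = 0 := by
    rcases mul_eq_zero.1 e2 with h | h
    · exact h
    · exact absurd h (by positivity)
  subst q2
  have e1 : p1 * e = 0 := by linear_combination P1 - P0
  have q1 : p1 = 0 := (mul_eq_zero.1 e1).resolve_right he
  subst q1
  refine ⟨rfl, rfl, rfl, ?_⟩
  linarith

lemma core (I : Set ℝ) (hIo : IsOpen I) (hI : I.OrdConnected) (hne : I.Nonempty)
    (h h' : ℝ → ℝ) (hd : ∀ x ∈ I, HasDerivAt h (h' x) x) (g d A2 A1 A0 : ℝ)
    (W : ∀ x ∈ I, h x * h' x = g * h x + d)
    (S : ∀ x ∈ I, x * h x = A2 * h x ^ 2 + A1 * h x + A0) :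
    ∃ m n : ℝ, ∀ x ∈ I, h x = m * x + n := by
  by_cases hconst : ∀ x ∈ I, ∀ y ∈ I, h x = h y
  · obtain ⟨x₀, hx₀⟩ := hne
    exact ⟨0, h x₀, fun x hx => by rw [hconst x hx x₀ hx₀]; ring⟩
  push Not at hconst
  obtain ⟨x₁, hx₁, x₂, hx₂, hne12⟩ := hconst
  have T : ∀ x ∈ I, (1 - g * A2) * h x ^ 3 + (-(d * A2)) * h x ^ 2 + (g * A0) * h x + d * A0 = 0 := by
    intro x hx
    have D1 : HasDerivAt (fun y => y * h y) (1 * h x + x * h' x) x :=
      (hasDerivAt_id x).mul (hd x hx)
    have D2 : HasDerivAt (fun y => A2 * h y ^ 2 + A1 * h y + A0)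
        (A2 * ((2 : ℕ) * h x ^ (2 - 1) * h' x) + A1 * h' x) x :=
      ((((hd x hx).pow 2).const_mul A2).add ((hd x hx).const_mul A1)).add_const A0
    have D3 : HasDerivAt (fun y => y * h y) (A2 * ((2 : ℕ) * h x ^ (2 - 1) * h' x) + A1 * h' x) x := by
      refine D2.congr_of_eventuallyEq ?_
      filter_upwards [hIo.mem_nhds hx] with y hy
      exact S y hy
    have Dv := D1.unique D3
    have W' := W x hx
    have S' := S x hx
    norm_num at Dv
    linear_combination h x ^ 2 * Dv - h x * h' x * S' - (A0 - A2 * h x ^ 2) * W'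
  have hcont : ContinuousOn h I := fun x hx => (hd x hx).continuousAt.continuousWithinAt
  have hpre : (h '' I).OrdConnected := (hI.isPreconnected.image h hcont).ordConnected
  have hsub := hpre.uIcc_subset (mem_image_of_mem h hx₁) (mem_image_of_mem h hx₂)
  have hval : ∀ t ∈ uIcc (h x₁) (h x₂),
      (1 - g * A2) * t ^ 3 + (-(d * A2)) * t ^ 2 + (g * A0) * t + d * A0 = 0 := by
    intro t ht
    obtain ⟨x, hx, rfl⟩ := hsub ht
    exact T x hx
  set e : ℝ := (h x₂ - h x₁) / 3 with he
  have he0 : e ≠ 0 := by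
    rw [he]
    exact div_ne_zero (sub_ne_zero.2 (Ne.symm hne12)) (by norm_num)
  have hin : ∀ k : ℝ, 0 ≤ k → k ≤ 3 → h x₁ + k * e ∈ uIcc (h x₁) (h x₂) := by
    intro k hk0 hk3
    rcases le_total (h x₁) (h x₂) with h0 | h0
    · rw [uIcc_of_le h0, he]
      constructor
      · nlinarith
      · nlinarith
    · rw [uIcc_of_ge h0, he]
      constructor
      · nlinarith
      · nlinarith
  obtain ⟨r3, r2, r1, r0⟩ := cubic_zero _ _ _ _ (h x₁) e he0 (by
    intro t ht
    simp only [mem_insert_iff, mem_singleton_iff] at ht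
    apply hval
    rcases ht with rfl | rfl | rfl | rfl
    · simpa using hin 0 le_rfl (by norm_num)
    · simpa using hin 1 (by norm_num) (by norm_num)
    · exact hin 2 (by norm_num) (by norm_num)
    · exact hin 3 (by norm_num) le_rfl)
  have hgA : g * A2 = 1 := by linarith
  have hg : g ≠ 0 := left_ne_zero_of_mul (by rw [hgA]; exact one_ne_zero)
  have hA2 : A2 ≠ 0 := right_ne_zero_of_mul (by rw [hgA]; exact one_ne_zero)
  have hd0 : d = 0 := (mul_eq_zero.1 (neg_eq_zero.1 r2)).resolve_right hA2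
  have hA0 : A0 = 0 := (mul_eq_zero.1 r1).resolve_left hg
  have hlines : ∀ x ∈ I, h x = 0 ∨ h x = g * (x - A1) := by
    intro x hx
    have S' := S x hx
    rw [hA0, add_zero] at S'
    by_cases h0 : h x = 0
    · exact Or.inl h0
    · right
      have h1 : x = A2 * h x + A1 := by
        apply mul_right_cancel₀ h0
        linear_combination S'
      have h2 : g * (x - A1) = g * A2 * h x := by
        have : x - A1 = A2 * h x := by linarith
        rw [this]; ring
      rw [h2, hgA, one_mul]
  rcases two_lines I hI h (fun x hx => (hd x hx).differentiableAt) A1 g hg hlines with h0 | h0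
  · exact ⟨0, 0, fun x hx => by rw [h0 x hx]; ring⟩
  · exact ⟨g, -(g * A1), fun x hx => by rw [h0 x hx]; ring⟩

theorem t : H12VR.TaskOdeC := by
  intro f I X Y c c' hIo hI hne hdiff hc hc' hcc hX0 hX1 hX3 hY0 hY1 hY3 hX hY
  set A : ℝ := c' ^ 2 - c ^ 2 with hA
  have hA0 : A ≠ 0 := by
    rw [hA]
    intro h0
    have h1 : (c' - c) * (c' + c) = 0 := by linarith
    rcases mul_eq_zero.1 h1 with h2 | h2
    · exact hcc (by linarith)
    · linarith
  set q1 : ℝ := X 2 / X 3 with hq1
  set s1 : ℝ := X 4 / X 3 with hs1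
  set t1 : ℝ := X 5 / X 3 with ht1
  set q2 : ℝ := Y 2 / Y 3 with hq2
  set s2 : ℝ := Y 4 / Y 3 with hs2
  set t2 : ℝ := Y 5 / Y 3 with ht2
  have E1 : ∀ x ∈ I, deriv f x * (-(c ^ 2) * f x + q1) = x + s1 * f x + t1 := by
    intro x hx
    have := hX x hx
    simp only [H12VR.fd, hX0, hX1] at this
    rw [hq1, hs1, ht1]
    field_simp
    linear_combination this
  have E2 : ∀ x ∈ I, deriv f x * (-(c' ^ 2) * f x + q2) = x + s2 * f x + t2 := by
    intro x hx
    have := hY x hx
    simp only [H12VR.fd, hY0, hY1] at this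
    rw [hq2, hs2, ht2]
    field_simp
    linear_combination this
  set B : ℝ := q1 - q2 with hB
  set s : ℝ := s1 - s2 with hs
  set τ : ℝ := t1 - t2 with hτ
  have E3 : ∀ x ∈ I, deriv f x * (A * f x + B) = s * f x + τ := by
    intro x hx
    have e1 := E1 x hx
    have e2 := E2 x hx
    rw [hA, hB, hs, hτ]
    linear_combination e1 - e2
  obtain ⟨m, n, hmn⟩ := core I hIo hI hne (fun x => A * f x + B) (fun x => A * deriv f x)
    (fun x hx => ((hdiff x hx).hasDerivAt.const_mul A).add_const B)
    s (A * τ - s * B)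
    ((s / A) * (-(c ^ 2) / A) - s1 / A)
    ((s / A) * (q1 + c ^ 2 * B / A) + (τ - s * B / A) * (-(c ^ 2) / A) - (t1 - s1 * B / A))
    ((τ - s * B / A) * (q1 + c ^ 2 * B / A))
    (by
      intro x hx
      have e3 := E3 x hx
      show (A * f x + B) * (A * deriv f x) = s * (A * f x + B) + (A * τ - s * B)
      linear_combination A * e3)
    (by
      intro x hx
      have e1 := E1 x hx
      have e3 := E3 x hx
      show x * (A * f x + B) = _
      have e4 : x * (A * f x + B) = (s * f x + τ) * (-(c ^ 2) * f x + q1) -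
          (s1 * f x + t1) * (A * f x + B) := by
        linear_combination (-(A * f x + B)) * e1 + (-(c ^ 2) * f x + q1) * e3
      rw [e4]
      field_simp
      ring)
  refine ⟨m / A, (n - B) / A, fun x hx => ?_⟩
  have h1 : A * f x + B = m * x + n := hmn x hx
  field_simp
  linear_combination h1

end Pool.Agent.H679R3.VR
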