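import Pool.Agent.H12R3.VR.Stmts

/-!
# A linear differential equation on an interval
-/

set_option autoImplicit false

open Filter Topology Set

namespace Pool.Agent.H679R3.VR

lemma const_of_hasDeriv (I : Set ℝ) (hIo : IsOpen I) (hI : I.OrdConnected) (hne : I.Nonempty)
    (h : ℝ → ℝ) (hd : ∀ x ∈ I, HasDerivAt h 0 x) : ∃ c : ℝ, ∀ x ∈ I, h x = c := by
  obtain ⟨x₀, hx₀⟩ := hne
  refine ⟨h x₀, fun x hx => ?_⟩
  exact hIo.is_const_of_deriv_eq_zero hI.isPreconnected
    (fun y hy => (hd y hy).differentiableAt.differentiableWithinAt)
    (fun y hy => (hd y hy).deriv) hx hx₀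

theorem tB : H12VR.TaskOdeB := by
  intro f I w k v hIo hI hne hdiff hnz hf
  obtain ⟨x₀, hx₀⟩ := id hne
  by_cases hw : w = 0
  · subst hw
    by_cases hk : k = 0
    · subst hk
      exfalso
      have h1 := hf x₀ hx₀
      have hv : v = 0 := by linarith
      rcases hnz with h | h | h
      · exact h rfl
      · exact h rfl
      · exact h hv
    · refine Or.inl ⟨0, -v / k, fun x hx => ?_⟩
      have h1 := hf x hx
      field_simp
      linarith
  · by_cases hk : k = 0
    · subst hk
      obtain ⟨c, hc⟩ := const_of_hasDeriv I hIo hI hne (fun x => f x - v / w * x) (by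
        intro x hx
        have h1 := (hdiff x hx).hasDerivAt.sub ((hasDerivAt_id x).const_mul (v / w))
        have h2 : deriv f x - v / w * 1 = 0 := by
          have h3 := hf x hx
          field_simp
          linarith
        rw [h2] at h1
        exact h1)
      refine Or.inl ⟨v / w, c, fun x hx => ?_⟩
      have := hc x hx
      linarith
    · obtain ⟨b, hb⟩ := const_of_hasDeriv I hIo hI hne
        (fun x => (f x + v / k) * Real.exp (-(k / w) * x)) (by
        intro x hx
        have h1 := ((hdiff x hx).hasDerivAt.add_const (v / k)).mul
          (((hasDerivAt_id x).const_mul (-(k / w))).exp)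
        have h2 : deriv f x * Real.exp (-(k / w) * id x) +
            (f x + v / k) * (Real.exp (-(k / w) * id x) * (-(k / w) * 1)) = 0 := by
          have h3 := hf x hx
          have h4 : deriv f x = (k * f x + v) / w := by
            field_simp
            linarith
          rw [h4]
          field_simp
          ring
        rw [h2] at h1
        exact h1)
      have hform : ∀ x ∈ I, f x = -(v / k) + b * Real.exp (k / w * x) := by
        intro x hx
        have h1 := hb x hx
        rw [← h1, mul_assoc, ← Real.exp_add]
        have : -(k / w) * x + k / w * x = 0 := by ring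
        rw [this, Real.exp_zero]
        ring
      by_cases hb0 : b = 0
      · refine Or.inl ⟨0, -(v / k), fun x hx => ?_⟩
        rw [hform x hx, hb0]
        ring
      · exact Or.inr ⟨-(v / k), b, k / w, hb0, div_ne_zero hk hw, hform⟩

end Pool.Agent.H679R3.VR
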